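import Mathlib

namespace Pool.Agent.Results.MP_64ebd5_nt.BTwoNotPrimitive

/-- The primes in increasing order, indexed from `1`: `p 1 = 2`, `p 2 = 3`, ... -/
noncomputable def p (k : ℕ) : ℕ := Nat.nth Nat.Prime (k - 1)

/-- The least index `j ≥ k` with `σ(p_k ⋯ p_j) ≥ 2 p_k ⋯ p_j`. -/
noncomputable def f (k : ℕ) : ℕ :=
  sInf {j : ℕ | k ≤ j ∧
    2 * ∏ l ∈ Finset.Icc k j, p l ≤ ∑ d ∈ (∏ l ∈ Finset.Icc k j, p l).divisors, d}

/-- `A_k = ∏_{k ≤ l ≤ f(k)} p_l`. -/
noncomputable def A (k : ℕ) : ℕ := ∏ l ∈ Finset.Icc k (f k), p l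

/-- `B_k = (A_k / p_{f(k)}) p_{f(k)+1} p_{f(k)+2}`. -/
noncomputable def B (k : ℕ) : ℕ := A k / p (f k) * p (f k + 1) * p (f k + 2)

/-- `n` is primitive pseudoperfect: `n` is pseudoperfect and no divisor `d < n` of `n` is. -/
def PrimitivePseudoperfect (n : ℕ) : Prop :=
  n.Pseudoperfect ∧ ∀ d, d ∣ n → d < n → ¬ d.Pseudoperfect

theorem nth_prime_eq (i q : ℕ) (hq : q.Prime) (hc : Nat.count Nat.Prime q = i) :
    Nat.nth Nat.Prime i = q := by
  rw [← hc]
  exact Nat.nth_count hq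

theorem p2 : p 2 = 3 := nth_prime_eq 1 3 (by norm_num) (by decide)
theorem p3 : p 3 = 5 := nth_prime_eq 2 5 (by norm_num) (by decide)
theorem p4 : p 4 = 7 := nth_prime_eq 3 7 (by norm_num) (by decide)
theorem p5 : p 5 = 11 := nth_prime_eq 4 11 (by norm_num) (by decide)
theorem p6 : p 6 = 13 := nth_prime_eq 5 13 (by norm_num) (by decide)
theorem p7 : p 7 = 17 := nth_prime_eq 6 17 (by norm_num) (by decide)
theorem p8 : p 8 = 19 := nth_prime_eq 7 19 (by norm_num) (by decide)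

theorem prod2 : ∏ l ∈ Finset.Icc 2 2, p l = 3 := by simp [p2]
theorem prod3 : ∏ l ∈ Finset.Icc 2 3, p l = 15 := by
  rw [Finset.prod_Icc_succ_top (by norm_num), prod2, p3]
  norm_num
theorem prod4 : ∏ l ∈ Finset.Icc 2 4, p l = 105 := by
  rw [Finset.prod_Icc_succ_top (by norm_num), prod3, p4]
  norm_num
theorem prod5 : ∏ l ∈ Finset.Icc 2 5, p l = 1155 := by
  rw [Finset.prod_Icc_succ_top (by norm_num), prod4, p5]
  norm_num
theorem prod6 : ∏ l ∈ Finset.Icc 2 6, p l = 15015 := by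
  rw [Finset.prod_Icc_succ_top (by norm_num), prod5, p6]
  norm_num

theorem s3 : ∑ d ∈ (3 : ℕ).divisors, d = 4 := Nat.Prime.sum_divisors (by norm_num)
theorem s15 : ∑ d ∈ (15 : ℕ).divisors, d = 24 := by
  rw [show (15 : ℕ) = 3 * 5 by norm_num, Nat.Coprime.sum_divisors_mul (by norm_num), s3,
    Nat.Prime.sum_divisors (p := 5) (by norm_num)]
  norm_num
theorem s105 : ∑ d ∈ (105 : ℕ).divisors, d = 192 := by
  rw [show (105 : ℕ) = 15 * 7 by norm_num, Nat.Coprime.sum_divisors_mul (by norm_num), s15,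
    Nat.Prime.sum_divisors (p := 7) (by norm_num)]
  norm_num
theorem s1155 : ∑ d ∈ (1155 : ℕ).divisors, d = 2304 := by
  rw [show (1155 : ℕ) = 105 * 11 by norm_num, Nat.Coprime.sum_divisors_mul (by norm_num), s105,
    Nat.Prime.sum_divisors (p := 11) (by norm_num)]
  norm_num
theorem s15015 : ∑ d ∈ (15015 : ℕ).divisors, d = 32256 := by
  rw [show (15015 : ℕ) = 1155 * 13 by norm_num, Nat.Coprime.sum_divisors_mul (by norm_num), s1155,
    Nat.Prime.sum_divisors (p := 13) (by norm_num)]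
  norm_num

theorem f2 : f 2 = 6 := by
  unfold f
  apply le_antisymm
  · apply Nat.sInf_le
    refine ⟨by norm_num, ?_⟩
    rw [prod6, s15015]
    norm_num
  · apply le_csInf
    · exact ⟨6, by norm_num, by rw [prod6, s15015]; norm_num⟩
    · rintro j ⟨hj1, hj2⟩
      by_contra hlt
      have h : j = 2 ∨ j = 3 ∨ j = 4 ∨ j = 5 := by omega
      rcases h with rfl | rfl | rfl | rfl
      · rw [prod2, s3] at hj2
        omega
      · rw [prod3, s15] at hj2
        omega
      · rw [prod4, s105] at hj2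
        omega
      · rw [prod5, s1155] at hj2
        omega

theorem B2 : B 2 = 373065 := by
  unfold B A
  rw [f2, prod6, p6, p7, p8]

theorem pseudoperfect_19635 : Nat.Pseudoperfect 19635 := by
  refine ⟨by norm_num, {1, 3, 5, 7, 15, 17, 33, 35, 51, 55, 77, 85, 105, 119, 165, 187, 231, 255,
    357, 561, 595, 935, 1155, 1309, 2805, 3927, 6545}, ?_, by decide⟩
  intro d hd
  rw [Nat.mem_properDivisors]
  simp only [Finset.mem_insert, Finset.mem_singleton] at hd
  rcases hd with rfl | rfl | rfl | rfl | rfl | rfl | rfl | rfl | rfl | rfl | rfl | rfl | rfl | rfl |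
    rfl | rfl | rfl | rfl | rfl | rfl | rfl | rfl | rfl | rfl | rfl | rfl | rfl <;> norm_num

/-- `B_2 = 373065` is not primitive pseudoperfect, because its proper divisor `19635` is
pseudoperfect. -/
theorem result : B 2 = 373065 ∧ (19635 ∣ B 2 ∧ 19635 < B 2 ∧ Nat.Pseudoperfect 19635) ∧
    ¬ PrimitivePseudoperfect (B 2) := by
  rw [B2]
  refine ⟨rfl, ⟨by norm_num, by norm_num, pseudoperfect_19635⟩, ?_⟩
  intro h
  exact h.2 19635 (by norm_num) (by norm_num) pseudoperfect_19635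

end Pool.Agent.Results.MP_64ebd5_nt.BTwoNotPrimitive
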